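import Pool.Agent.TH751.TheonF

/-!
Borel strong theons for theories of graphs axiomatised by clauses whose conclusions form a
matching.
-/

set_option autoImplicit false

open MeasureTheory Set Filter Topology ProbabilityTheory Metric
open scoped ENNReal

namespace Pool.Agent.Y403.BT

open Pool.Agent.TH751.Theon

/-- A clause: there are `n` variables `x_0, …, x_{n-1}` (for distinct vertices), the hypotheses are
the atoms `E(x_i, x_j)` for `hyp i j`, and the conclusions are the `m` atoms
`E(x_{con (k, 0)}, x_{con (k, 1)})`, `k < m`. The map `con` is injective, so that the conclusions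
form a matching. -/
structure Clause where
  n : ℕ
  m : ℕ
  hyp : Fin n → Fin n → Prop
  con : Fin m × Fin 2 ↪ Fin n

/-- The binary relation `M` satisfies the clause: for all distinct `x_0, …, x_{n-1}`, if all the
hypotheses hold then some conclusion holds. -/
def Clause.Sat (C : Clause) {V : Type} (M : V → V → Prop) : Prop :=
  ∀ β : Fin C.n ↪ V, (∀ i j, C.hyp i j → M (β i) (β j)) →
    ∃ k, M (β (C.con (k, 0))) (β (C.con (k, 1)))

/-- `M` is a model of the theory of graphs axiomatised by the clauses in `T`. -/
def Model (T : Set Clause) {V : Type} (M : V → V → Prop) : Prop :=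
  (∀ v, ¬ M v v) ∧ (∀ u v, M u v → M v u) ∧ ∀ C ∈ T, C.Sat M

/-- `N` (Lebesgue measurability is required separately) is a weak `T`-on. -/
def WeakOn (T : Set Clause) (N : Set (EV (Fin 2))) : Prop :=
  ∀ (V : Type) [Fintype V] (M : V → V → Prop), Canonical M → ¬ Model T M →
    (volume : Measure (EV V)) (Tind M N) = 0

/-- `N` (Lebesgue measurability is required separately) is a strong `T`-on. -/
def StrongOn (T : Set Clause) (N : Set (EV (Fin 2))) : Prop :=
  ∀ (V : Type) [Fintype V] (M : V → V → Prop), Canonical M → ¬ Model T M → Tind M N ⊆ diag V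

theorem strong_of_model {T : Set Clause} {N : Set (EV (Fin 2))}
    (h : ∀ (V : Type) [Fintype V] (y : EV V), y ∉ diag V → Model T (rel N y)) : StrongOn T N := by
  intro V _ M hc hM y hy
  by_contra hyd
  have hMy := h V y hyd
  apply hM
  have : M = rel N y := by
    ext u v
    constructor
    · intro huv
      have hne : u ≠ v := by
        rintro rfl
        exact hc u huv
      let α : Fin 2 ↪ V := ⟨![u, v], by
        intro i j hij
        fin_cases i <;> fin_cases j <;> simp_all⟩
      refine ⟨α, rfl, rfl, ?_⟩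
      exact (hy α).2 huv
    · rintro ⟨α, rfl, rfl, hα⟩
      exact (hy α).1 hα
  rwa [this]

/-! ### independence -/

section pigeneral

variable {J W ι X : Type*} [Fintype J] [Fintype W] [Fintype ι] [MeasurableSpace X]

theorem pi_block (ν : J × W → Measure X) [∀ q, IsProbabilityMeasure (ν q)] :
    (Measure.pi fun k : J => Measure.pi fun A : W => ν (k, A)).map
      (fun (z : J → W → X) (q : J × W) => z q.1 q.2) = Measure.pi ν := by
  refine (Measure.pi_eq fun s hs => ?_).symm
  have hm : Measurable (fun (z : J → W → X) (q : J × W) => z q.1 q.2) := by fun_prop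
  rw [Measure.map_apply hm (MeasurableSet.univ_pi hs)]
  have hpre : (fun (z : J → W → X) (q : J × W) => z q.1 q.2) ⁻¹' (pi univ s) =
      pi univ (fun k : J => pi univ fun A : W => s (k, A)) := by
    ext z
    simp only [mem_preimage, Set.mem_pi, mem_univ, forall_const, Prod.forall]
  rw [hpre, Measure.pi_pi, Fintype.prod_prod_type]
  refine Finset.prod_congr rfl fun k _ => ?_
  rw [Measure.pi_pi]

theorem pi_indep_family (j : J × W → ι) (hj : Function.Injective j) (ν : ι → Measure X)
    [∀ i, IsProbabilityMeasure (ν i)] {A : Set (W → X)} (hA : MeasurableSet A) :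
    (Measure.pi ν) {x | ∀ k, (fun w => x (j (k, w))) ∈ A} =
      ∏ k, (Measure.pi ν) {x | (fun w => x (j (k, w))) ∈ A} := by
  have h1 := pi_comp_map j hj ν
  have h2 := pi_block fun q : J × W => ν (j q)
  have hB : MeasurableSet {z : J × W → X | ∀ k, (fun w => z (k, w)) ∈ A} := by
    have : {z : J × W → X | ∀ k, (fun w => z (k, w)) ∈ A} =
        ⋂ k, (fun z : J × W → X => fun w => z (k, w)) ⁻¹' A := by
      ext z; simp
    rw [this]
    refine MeasurableSet.iInter fun k => ?_
    exact (show Measurable fun z : J × W → X => fun w => z (k, w) by fun_prop) hA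
  have h3 : (Measure.pi ν) {x | ∀ k, (fun w => x (j (k, w))) ∈ A} =
      (Measure.pi fun i => ν (j i)) {z : J × W → X | ∀ k, (fun w => z (k, w)) ∈ A} := by
    rw [← h1, Measure.map_apply (by fun_prop) hB]
    rfl
  rw [h3, ← h2, Measure.map_apply (by fun_prop) hB]
  have h4 : (fun (z : J → W → X) (q : J × W) => z q.1 q.2) ⁻¹'
      {z : J × W → X | ∀ k, (fun w => z (k, w)) ∈ A} = pi univ fun _ : J => A := by
    ext z
    simp only [mem_preimage, mem_ofPred_eq, Set.mem_pi, mem_univ, forall_const]
  rw [h4, Measure.pi_pi]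
  refine Finset.prod_congr rfl fun k _ => ?_
  have h5 := pi_comp_map (fun w => j (k, w)) (fun a b h => by
    have := hj h
    exact (Prod.mk.injEq _ _ _ _ ▸ this : _ ∧ _).2) ν
  rw [← h5, Measure.map_apply (by fun_prop) hA]
  rfl

end pigeneral

theorem indep_family {s : ℕ → ℕ} {V : Type} [Fintype V] {m : ℕ} (c : Fin m × Fin 2 ↪ V)
    {A : Set (EV (Fin 2))} (hA : MeasurableSet A) (n : V → ℕ) (x : EV V)
    (p : Fin m → (Fin 2 ↪ V)) (hp : ∀ k a, p k a = c (k, a)) :
    Rm s n x {y | ∀ k, pull (p k) y ∈ A} = ∏ k, Rm s n x {y | pull (p k) y ∈ A} := by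
  have hinj : Function.Injective (fun q : Fin m × NESub (Fin 2) => nemap (p q.1) q.2) := by
    rintro ⟨k, B⟩ ⟨k', B'⟩ h
    simp only at h
    have hk : k = k' := by
      obtain ⟨i, hi⟩ := B.2
      have h1 : p k i ∈ (nemap (p k) B).1 := Finset.mem_map_of_mem _ hi
      rw [h] at h1
      obtain ⟨i', _, hi'⟩ := Finset.mem_map.1 h1
      rw [hp, hp] at hi'
      exact (congrArg Prod.fst (c.injective hi')).symm
    subst hk
    rw [nemap_inj _ h]
  exact pi_indep_family (fun q : Fin m × NESub (Fin 2) => nemap (p q.1) q.2) hinj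
    (fun A : NESub V => kap (s (A.1.sup n)) (x A)) hA

end Pool.Agent.Y403.BT
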