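import Pool.Agent.Y403.BT.Main

/-!
The dual form: clauses whose hypotheses form a matching; the 4-cycle as a clause.
-/

set_option autoImplicit false

open MeasureTheory Set

namespace Pool.Agent.Y403.BT

open Pool.Agent.TH751.Theon

/-- The binary relation `M` satisfies the dual of the clause: for all distinct
`x_0, …, x_{n-1}`, if `E(x_{con (k, 0)}, x_{con (k, 1)})` holds for all `k < m`, then
`E(x_i, x_j)` holds for some `i, j` with `hyp i j`. -/
def Clause.DualSat (C : Clause) {V : Type} (M : V → V → Prop) : Prop :=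
  ∀ β : Fin C.n ↪ V, (∀ k, M (β (C.con (k, 0))) (β (C.con (k, 1)))) →
    ∃ i j, C.hyp i j ∧ M (β i) (β j)

/-- `M` is a model of the theory of graphs axiomatised by the duals of the clauses in `T`. -/
def DualModel (T : Set Clause) {V : Type} (M : V → V → Prop) : Prop :=
  (∀ v, ¬ M v v) ∧ (∀ u v, M u v → M v u) ∧ ∀ C ∈ T, C.DualSat M

/-- `N` (Lebesgue measurability is required separately) is a weak theon of the dual theory. -/
def DualWeakOn (T : Set Clause) (N : Set (EV (Fin 2))) : Prop :=
  ∀ (V : Type) [Fintype V] (M : V → V → Prop), Canonical M → ¬ DualModel T M →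
    (volume : Measure (EV V)) (Tind M N) = 0

/-- `N` (Lebesgue measurability is required separately) is a strong theon of the dual theory. -/
def DualStrongOn (T : Set Clause) (N : Set (EV (Fin 2))) : Prop :=
  ∀ (V : Type) [Fintype V] (M : V → V → Prop), Canonical M → ¬ DualModel T M →
    Tind M N ⊆ diag V

/-- the complement of a relation -/
def comp {V : Type} (M : V → V → Prop) (u v : V) : Prop := u ≠ v ∧ ¬ M u v

theorem canonical_comp {V : Type} (M : V → V → Prop) : Canonical (comp M) := fun _ h => h.1 rfl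

theorem comp_comp {V : Type} {M : V → V → Prop} (h : Canonical M) : comp (comp M) = M := by
  funext u v
  apply propext
  unfold comp
  constructor
  · rintro ⟨h1, h2⟩
    by_contra h3
    exact h2 ⟨h1, h3⟩
  · intro h1
    have h2 : u ≠ v := by
      rintro rfl
      exact h u h1
    exact ⟨h2, fun h3 => h3.2 h1⟩

/-- the clause without diagonal hypotheses -/
def offd (C : Clause) : Clause := { C with hyp := fun i j => C.hyp i j ∧ i ≠ j }

theorem dual_iff {T : Set Clause} {V : Type} {M : V → V → Prop} (hM : Canonical M) :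
    DualModel T M ↔ Model (offd '' T) (comp M) := by
  constructor
  · rintro ⟨h1, h2, h3⟩
    refine ⟨canonical_comp M, fun u v h => ⟨h.1.symm, fun h' => h.2 (h2 _ _ h')⟩, ?_⟩
    rintro _ ⟨C, hC, rfl⟩ β hβ
    by_contra hcon
    push Not at hcon
    obtain ⟨i, j, hij, hMij⟩ := h3 C hC β (fun k => by
      by_contra hk
      refine hcon k ⟨fun h => ?_, hk⟩
      have h01 : (0 : Fin 2) = 1 := congrArg Prod.snd (C.con.injective (β.injective h))
      exact absurd h01 (by decide))
    have hne : i ≠ j := by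
      rintro rfl
      exact h1 _ hMij
    exact (hβ i j ⟨hij, hne⟩).2 hMij
  · rintro ⟨-, h2, h3⟩
    refine ⟨hM, fun u v h => ?_, ?_⟩
    · by_contra hvu
      have hne : v ≠ u := by
        rintro rfl
        exact hM _ h
      exact (h2 v u ⟨hne, hvu⟩).2 h
    · intro C hC β hβ
      by_contra hcon
      push Not at hcon
      obtain ⟨k, hk⟩ := h3 (offd C) ⟨C, hC, rfl⟩ β (fun i j hij =>
        ⟨fun h => hij.2 (β.injective h), hcon i j hij.1⟩)
      exact hk.2 (hβ k)

theorem Tind_comp {V : Type} (M : V → V → Prop) (N : Set (EV (Fin 2))) :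
    Tind (comp M) Nᶜ = Tind M N := by
  ext x
  unfold Tind comp
  simp only [mem_ofPred_eq, mem_compl_iff]
  refine forall_congr' fun α => ?_
  have hne : α 0 ≠ α 1 := fun h => absurd (α.injective h) (by decide)
  constructor
  · intro h
    by_cases h1 : pull α x ∈ N
    · refine ⟨fun _ => ?_, fun _ => h1⟩
      by_contra h2
      exact h.2 ⟨hne, h2⟩ h1
    · exact ⟨fun h2 => absurd h2 h1, fun h2 => absurd h2 (h.1 h1).2⟩
  · intro h
    exact ⟨fun h1 => ⟨hne, fun h2 => h1 (h.2 h2)⟩, fun h1 h2 => h1.2 (h.1 h2)⟩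

theorem dualWeak_iff {T : Set Clause} {N : Set (EV (Fin 2))} :
    DualWeakOn T N ↔ WeakOn (offd '' T) Nᶜ := by
  constructor
  · intro h V _ M hc hM
    have h1 := h V (comp M) (canonical_comp M) (by
      rw [dual_iff (canonical_comp M), comp_comp hc]; exact hM)
    rwa [← Tind_comp, comp_comp hc] at h1
  · intro h V _ M hc hM
    have h1 := h V (comp M) (canonical_comp M) (by rw [← dual_iff hc]; exact hM)
    rwa [Tind_comp] at h1

theorem dualStrong_iff {T : Set Clause} {N : Set (EV (Fin 2))} :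
    DualStrongOn T N ↔ StrongOn (offd '' T) Nᶜ := by
  constructor
  · intro h V _ M hc hM
    have h1 := h V (comp M) (canonical_comp M) (by
      rw [dual_iff (canonical_comp M), comp_comp hc]; exact hM)
    rwa [← Tind_comp, comp_comp hc] at h1
  · intro h V _ M hc hM
    have h1 := h V (comp M) (canonical_comp M) (by rw [← dual_iff hc]; exact hM)
    rwa [Tind_comp] at h1

theorem exists_borel_dual {T : Set Clause} {N : Set (EV (Fin 2))}
    (hN : NullMeasurableSet N volume) (h : DualWeakOn T N) :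
    ∃ N' : Set (EV (Fin 2)), MeasurableSet N' ∧ DualStrongOn T N' ∧
      volume (symmDiff N N') = 0 := by
  obtain ⟨N', h1, h2, h3⟩ := exists_borel hN.compl (dualWeak_iff.1 h)
  refine ⟨N'ᶜ, h1.compl, ?_, ?_⟩
  · rw [dualStrong_iff, compl_compl]
    exact h2
  · rw [measure_symmDiff_eq_zero_iff] at h3 ⊢
    have h4 := h3.compl
    rwa [compl_compl] at h4

/-- the clause of the 4-cycle `0 1 2 3` with the conclusions `02` and `13` -/
def c4 : Clause where
  n := 4
  m := 2
  hyp i j := (i = 0 ∧ j = 1) ∨ (i = 1 ∧ j = 2) ∨ (i = 2 ∧ j = 3) ∨ (i = 3 ∧ j = 0)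
  con := ⟨fun q => if q = (0, 0) then 0 else if q = (0, 1) then 2 else if q = (1, 0) then 1
    else 3, by decide⟩

theorem c4_iff {V : Type} (M : V → V → Prop) : Model {c4} M ↔ ModelC4 M := by
  unfold Model ModelC4
  refine and_congr_right fun _ => and_congr_right fun _ => ?_
  constructor
  · intro h a b c d hab hac had hbc hbd hcd ⟨h1, h2, h3, h4, h5, h6⟩
    let β : Fin 4 ↪ V := ⟨![a, b, c, d], by
      intro i j hij
      fin_cases i <;> fin_cases j <;> simp_all⟩
    obtain ⟨k, hk⟩ := h c4 rfl β (by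
      rintro i j (⟨rfl, rfl⟩ | ⟨rfl, rfl⟩ | ⟨rfl, rfl⟩ | ⟨rfl, rfl⟩)
      · exact h1
      · exact h2
      · exact h3
      · exact h4)
    change Fin 2 at k
    fin_cases k
    · exact h5 hk
    · exact h6 hk
  · intro h C hC β hβ
    rw [Set.mem_singleton_iff] at hC
    subst hC
    by_contra hcon
    push Not at hcon
    change Fin 4 ↪ V at β
    have hne : ∀ i j : Fin 4, i ≠ j → β i ≠ β j := fun i j hij h => hij (β.injective h)
    refine h (β 0) (β 1) (β 2) (β 3) (hne _ _ (by decide)) (hne _ _ (by decide))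
      (hne _ _ (by decide)) (hne _ _ (by decide)) (hne _ _ (by decide)) (hne _ _ (by decide))
      ⟨hβ _ _ (Or.inl ⟨rfl, rfl⟩), hβ _ _ (Or.inr (Or.inl ⟨rfl, rfl⟩)),
        hβ _ _ (Or.inr (Or.inr (Or.inl ⟨rfl, rfl⟩))), hβ _ _ (Or.inr (Or.inr (Or.inr ⟨rfl, rfl⟩))),
        ?_, ?_⟩
    · exact hcon (0 : Fin 2)
    · exact hcon (1 : Fin 2)

end Pool.Agent.Y403.BT
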