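import Pool.Agent.Y403.BT.Core

/-!
Borel strong theons for theories of graphs axiomatised by clauses whose conclusions form a
matching: the main argument (after `TH751/TheonF`, which is the case of one clause, the 4-cycle).
-/

set_option autoImplicit false

open MeasureTheory Set Filter Topology ProbabilityTheory Metric
open scoped ENNReal

namespace Pool.Agent.Y403.BT

open Pool.Agent.TH751.Theon

/-- The embedding `0 ↦ i, 1 ↦ j`. -/
def emb {V : Type} (i j : V) (h : i ≠ j) : Fin 2 ↪ V := ⟨![i, j], by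
    intro a b hab
    fin_cases a <;> fin_cases b <;> simp_all⟩

theorem emb_zero {V : Type} (i j : V) (h : i ≠ j) : emb i j h 0 = i := rfl
theorem emb_one {V : Type} (i j : V) (h : i ≠ j) : emb i j h 1 = j := rfl

theorem core {s : ℕ → ℕ} {S N : Set (EV (Fin 2))} (hS : MeasurableSet S)
    (hSN : ∀ᵐ x ∂(volume : Measure (EV (Fin 2))), x ∈ S ↔ x ∈ N)
    (C : Clause) (hN : ∀ᵐ y ∂(volume : Measure (EV (Fin C.n))), C.Sat (rel N y))
    (x : EV (Fin C.n)) (p : Fin C.m → (Fin 2 ↪ Fin C.n)) (hp : ∀ k a, p k a = C.con (k, a))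
    (hhyp : ∀ i j, C.hyp i j → ∃ α : Fin 2 ↪ Fin C.n, α 0 = i ∧ α 1 = j ∧ pull α x ∈ Nb s S)
    (hcon : ∀ k, pull (p k) x ∉ Nb s S) : False := by
  classical
  -- the non-edges
  have hneg : ∀ k, ∃ ε : ℝ≥0∞, 0 < ε ∧
      ∀ a : Fin 2 → ℕ, ∃ b ≥ a, ε < Rm s b (pull (p k) x) Sᶜ := by
    intro k
    have hx' : ¬ Tendsto (fun n : Fin 2 → ℕ => Rm s n (pull (p k) x) Sᶜ) atTop (𝓝 0) := hcon k
    rw [ENNReal.tendsto_nhds_zero] at hx'
    push Not at hx'
    obtain ⟨ε, hε, hfreq⟩ := hx'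
    refine ⟨ε, hε, fun a => ?_⟩
    obtain ⟨b, hb, hb2⟩ := Filter.frequently_atTop.1 hfreq a
    exact ⟨b, hb, hb2⟩
  have hpos : ∀ {x : EV (Fin 2)}, x ∈ Nb s S → ∀ ε : ℝ≥0∞, 0 < ε →
      ∃ a : ℕ, ∀ b : Fin 2 → ℕ, a ≤ b 0 → a ≤ b 1 → Rm s b x Sᶜ ≤ ε := by
    intro x hx ε hε
    have hx' : Tendsto (fun n : Fin 2 → ℕ => Rm s n x Sᶜ) atTop (𝓝 0) := hx
    rw [ENNReal.tendsto_nhds_zero] at hx'
    obtain ⟨a, ha⟩ := Filter.eventually_atTop.1 (hx' ε hε)
    refine ⟨max (a 0) (a 1), fun b hb0 hb1 => ha b ?_⟩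
    intro i
    fin_cases i
    · exact (le_max_left _ _).trans hb0
    · exact (le_max_right _ _).trans hb1
  choose ε hε0 hεf using hneg
  set K : ℕ := Fintype.card (Fin 2 ↪ Fin C.n) with hK
  set R : ℝ≥0∞ := ∏ k, ε k with hR
  have hR0 : R ≠ 0 := Finset.prod_ne_zero_iff.2 fun k _ => (hε0 k).ne'
  set η : ℝ≥0∞ := R / 2 / (K + 1) with hη
  have hK1 : ((K : ℝ≥0∞) + 1) ≠ ∞ := ENNReal.add_ne_top.2 ⟨ENNReal.natCast_ne_top K,
    ENNReal.one_ne_top⟩
  have hη0 : 0 < η := ENNReal.div_pos (ENNReal.div_pos hR0 (by norm_num)).ne' hK1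
  have hpos' : ∀ α : Fin 2 ↪ Fin C.n, ∃ a : ℕ, pull α x ∈ Nb s S →
      ∀ b : Fin 2 → ℕ, a ≤ b 0 → a ≤ b 1 → Rm s b (pull α x) Sᶜ ≤ η := by
    intro α
    by_cases h : pull α x ∈ Nb s S
    · obtain ⟨a, ha⟩ := hpos h η hη0
      exact ⟨a, fun _ => ha⟩
    · exact ⟨0, fun h' => absurd h' h⟩
  choose a ha using hpos'
  set M : ℕ := Finset.univ.sup a with hM
  have haM : ∀ α, a α ≤ M := fun α => Finset.le_sup (Finset.mem_univ α)
  have hb : ∀ k, ∃ b : Fin 2 → ℕ, (fun _ => M) ≤ b ∧ ε k < Rm s b (pull (p k) x) Sᶜ := fun k =>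
    hεf k (fun _ => M)
  choose b hbM hbε using hb
  -- the levels
  let n : Fin C.n → ℕ := fun v => if h : ∃ q : Fin C.m × Fin 2, C.con q = v then
    b h.choose.1 h.choose.2 else M
  have hnp : ∀ k i, n (p k i) = b k i := by
    intro k i
    have h : ∃ q : Fin C.m × Fin 2, C.con q = p k i := ⟨(k, i), (hp k i).symm⟩
    have h1 : h.choose = (k, i) := C.con.injective (h.choose_spec.trans (hp k i))
    simp only [n, dif_pos h, h1]
  have hnM : ∀ v, M ≤ n v := by
    intro v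
    simp only [n]
    split_ifs with h
    · exact hbM _ _
    · exact le_rfl
  set P := Rm s n x with hP
  have hpull : ∀ (α : Fin 2 ↪ Fin C.n), P {y | pull α y ∈ Sᶜ} = Rm s (n ∘ α) (pull α x) Sᶜ := by
    intro α
    rw [← map_pull, Measure.map_apply (measurable_pull α) hS.compl]
    rfl
  have hconP : ∀ k, ε k ≤ P {y | pull (p k) y ∈ Sᶜ} := by
    intro k
    rw [hpull]
    have : n ∘ (p k) = b k := by
      ext i
      exact hnp k i
    rw [this]
    exact (hbε k).le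
  have hhypP : ∀ α : Fin 2 ↪ Fin C.n, pull α x ∈ Nb s S → P {y | pull α y ∈ Sᶜ} ≤ η := by
    intro α hα
    rw [hpull]
    exact ha α hα _ ((haM α).trans (hnM _)) ((haM α).trans (hnM _))
  -- null sets
  have hnull : ∀ α : Fin 2 ↪ Fin C.n, P {y | ¬ (pull α y ∈ S ↔ pull α y ∈ N)} = 0 := by
    intro α
    have h1 : ∀ᵐ y ∂(Rm s (n ∘ α) (pull α x)), y ∈ S ↔ y ∈ N :=
      (Rm_ac s _ _).ae_le hSN
    rw [← map_pull] at h1
    exact ae_of_ae_map (measurable_pull α).aemeasurable h1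
  have hsat : P {y | ¬ C.Sat (rel N y)} = 0 := (Rm_ac s n x).ae_le hN
  -- the exceptional sets
  set Bad : Set (EV (Fin C.n)) :=
    ⋃ α ∈ (Finset.univ : Finset (Fin 2 ↪ Fin C.n)).filter (fun α => pull α x ∈ Nb s S),
      {y | pull α y ∈ Sᶜ} with hBad
  set Nul : Set (EV (Fin C.n)) :=
    (⋃ α : Fin 2 ↪ Fin C.n, {y | ¬ (pull α y ∈ S ↔ pull α y ∈ N)}) ∪
    {y | ¬ C.Sat (rel N y)} with hNul
  have hNul0 : P Nul = 0 := by
    rw [hNul, measure_union_null_iff, measure_iUnion_null_iff]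
    exact ⟨hnull, hsat⟩
  have hBadle : P Bad ≤ K * η := by
    refine (measure_biUnion_finset_le _ _).trans ?_
    refine (Finset.sum_le_sum (g := fun _ => η) fun α hα => ?_).trans ?_
    · exact hhypP α (Finset.mem_filter.1 hα).2
    · rw [Finset.sum_const, nsmul_eq_mul]
      gcongr
      exact Finset.card_filter_le _ _
  have hgood : R ≤ P {y | ∀ k, pull (p k) y ∈ Sᶜ} := by
    rw [hP, indep_family C.con hS.compl n x p hp, hR]
    exact Finset.prod_le_prod' fun k _ => hconP k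
  have hfin : R ≠ ∞ := ne_top_of_le_ne_top (measure_ne_top P _) hgood
  have hlt : P (Bad ∪ Nul) < P {y | ∀ k, pull (p k) y ∈ Sᶜ} := by
    refine lt_of_lt_of_le ?_ hgood
    calc P (Bad ∪ Nul) ≤ P Bad + P Nul := measure_union_le _ _
      _ ≤ K * η := by rw [hNul0, add_zero]; exact hBadle
      _ ≤ (K + 1) * η := by gcongr; exact le_self_add
      _ = R / 2 := by
          rw [hη]
          exact ENNReal.mul_div_cancel (by simp) hK1
      _ < R := ENNReal.half_lt_self hR0 hfin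
  obtain ⟨y, hy1, hy2⟩ : ∃ y, y ∈ {y | ∀ k, pull (p k) y ∈ Sᶜ} ∧ y ∉ Bad ∪ Nul := by
    by_contra hcon
    push Not at hcon
    exact absurd (measure_mono (μ := P) (show {y | ∀ k, pull (p k) y ∈ Sᶜ} ⊆ Bad ∪ Nul from hcon))
      (not_le.2 hlt)
  rw [mem_union, not_or] at hy2
  obtain ⟨hyB, hyN⟩ := hy2
  rw [hNul, mem_union, not_or] at hyN
  obtain ⟨hyN1, hyN2⟩ := hyN
  simp only [mem_iUnion, mem_ofPred_eq, not_exists, not_not] at hyN1 hyN2 hy1
  obtain ⟨k, α, h0, h1, hα⟩ := hyN2 (Function.Embedding.refl _) (by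
    intro i j hij
    obtain ⟨α, h0, h1, hα⟩ := hhyp i j hij
    refine ⟨α, h0, h1, (hyN1 α).1 ?_⟩
    by_contra hne
    apply hyB
    rw [hBad]
    refine mem_iUnion₂.2 ⟨α, Finset.mem_filter.2 ⟨Finset.mem_univ _, hα⟩, hne⟩)
  have hαp : α = p k := emb_ext (by rw [h0, hp]; rfl) (by rw [h1, hp]; rfl)
  rw [hαp] at hα
  exact hy1 k ((hyN1 _).2 hα)

theorem ae_model {T : Set Clause} {N : Set (EV (Fin 2))} (h : WeakOn T N) (V : Type)
    [Fintype V] : ∀ᵐ y ∂(volume : Measure (EV V)), Model T (rel N y) := by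
  have hsub : {y : EV V | ¬ Model T (rel N y)} ⊆
      ⋃ M : {M : V → V → Prop // Canonical M ∧ ¬ Model T M}, Tind M.1 N := by
    intro y hy
    exact mem_iUnion.2 ⟨⟨rel N y, canonical_rel N y, hy⟩, mem_Tind_rel N y⟩
  refine measure_mono_null hsub ?_
  rw [measure_iUnion_null_iff]
  rintro ⟨M, hM1, hM2⟩
  exact h V M hM1 hM2

theorem weak_of_strong {T : Set Clause} {N : Set (EV (Fin 2))} (h : StrongOn T N) :
    WeakOn T N := by
  intro V _ M hM1 hM2
  exact measure_mono_null (h V M hM1 hM2) diagV_null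

theorem ae_symm {T : Set Clause} {N : Set (EV (Fin 2))} (h : WeakOn T N) :
    ∀ᵐ x ∂(volume : Measure (EV (Fin 2))), pull sw x ∈ N ↔ x ∈ N := by
  filter_upwards [ae_model h (Fin 2)] with x hx
  have hsw0 : sw 0 = 1 := by simp [sw]
  have hsw1 : sw 1 = 0 := by simp [sw]
  constructor
  · intro hx1
    obtain ⟨α, h0, h1, hα⟩ := hx.2.1 1 0 ⟨sw, hsw0, hsw1, hx1⟩
    have : α = Function.Embedding.refl _ := emb_ext h0 h1
    rwa [this, pull_refl] at hα
  · intro hx1
    obtain ⟨α, h0, h1, hα⟩ := hx.2.1 0 1 ⟨Function.Embedding.refl _, rfl, rfl, by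
      rwa [pull_refl]⟩
    have : α = sw := emb_ext (h0.trans hsw0.symm) (h1.trans hsw1.symm)
    rwa [this] at hα

theorem exists_borel {T : Set Clause} {N : Set (EV (Fin 2))} (hN : NullMeasurableSet N volume)
    (h : WeakOn T N) :
    ∃ N' : Set (EV (Fin 2)), MeasurableSet N' ∧ StrongOn T N' ∧ volume (symmDiff N N') = 0 := by
  obtain ⟨S0, hS0, hNS0⟩ : ∃ S0, MeasurableSet S0 ∧ N =ᵐ[volume] S0 := by
    obtain ⟨t, -, ht, hte⟩ := hN.exists_measurable_superset_ae_eq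
    exact ⟨t, ht, hte.symm⟩
  set S : Set (EV (Fin 2)) := S0 ∩ pull sw ⁻¹' S0 with hSdef
  have hS : MeasurableSet S := hS0.inter (measurable_pull sw hS0)
  have hsym : ∀ x, pull sw x ∈ S ↔ x ∈ S := by
    intro x
    simp only [hSdef, mem_inter_iff, mem_preimage, pull_sw_sw]
    tauto
  have h1 : ∀ᵐ x ∂(volume : Measure (EV (Fin 2))), x ∈ S0 ↔ x ∈ N := by
    filter_upwards [hNS0] with x hx
    exact (iff_of_eq hx).symm
  have h2 : ∀ᵐ x ∂(volume : Measure (EV (Fin 2))), pull sw x ∈ S0 ↔ pull sw x ∈ N := by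
    have h3 := h1
    rw [← volume_pull sw] at h3
    exact ae_of_ae_map (measurable_pull sw).aemeasurable h3
  have hSN : ∀ᵐ x ∂(volume : Measure (EV (Fin 2))), x ∈ S ↔ x ∈ N := by
    filter_upwards [h1, h2, ae_symm h] with x hx1 hx2 hx3
    simp only [hSdef, mem_inter_iff, mem_preimage]
    tauto
  obtain ⟨s, hs⟩ := exists_fast (S := S3 S) (measurable_ofTriple hS)
  refine ⟨Nb s S, measurableSet_Nb s hS, ?_, ?_⟩
  · refine strong_of_model fun V _ y _ => ⟨canonical_rel _ y, ?_, ?_⟩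
    · rintro u v ⟨α, h0, h1, hα⟩
      refine ⟨sw.trans α, ?_, ?_, ?_⟩
      · simpa [sw] using h1
      · simpa [sw] using h0
      · rw [← pull_trans]
        exact Nb_symm hS hsym hα
    · intro C hC β hβ
      by_contra hcon
      push Not at hcon
      let p : Fin C.m → (Fin 2 ↪ Fin C.n) := fun k =>
        ⟨fun a => C.con (k, a), fun a b hab => by
          have := C.con.injective hab
          exact (Prod.mk.injEq _ _ _ _ ▸ this : _ ∧ _).2⟩
      have hp : ∀ k a, p k a = C.con (k, a) := fun k a => rfl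
      have hNC : ∀ᵐ y ∂(volume : Measure (EV (Fin C.n))), C.Sat (rel N y) := by
        filter_upwards [ae_model h (Fin C.n)] with y hy
        exact hy.2.2 C hC
      refine core (s := s) hS hSN C hNC (pull β y) p hp ?_ ?_
      · intro i j hij
        obtain ⟨α, h0, h1, hα⟩ := hβ i j hij
        have hne : i ≠ j := by
          rintro rfl
          have := α.injective (h0.trans h1.symm)
          exact absurd this (by decide)
        refine ⟨emb i j hne, rfl, rfl, ?_⟩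
        rw [pull_trans]
        have : α = (emb i j hne).trans β := emb_ext h0 h1
        rwa [this] at hα
      · intro k hk
        rw [pull_trans] at hk
        exact hcon k ⟨_, rfl, rfl, hk⟩
  · rw [measure_symmDiff_eq_zero_iff]
    filter_upwards [Nb_ae_eq hS hsym hs, hSN] with x hx1 hx2
    exact propext (hx2.symm.trans hx1.symm)

end Pool.Agent.Y403.BT
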